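import Pool.Agent.MP27a405.Class

/-!
# The cover index of multigraphs: an exact class

`κ = min (δ, t^*)` for all multigraphs with at most 8 vertices, and for all multigraphs which are
glued at vertices from multigraphs of order at most 8, nearly bipartite multigraphs and
series-parallel multigraphs.
-/

set_option autoImplicit false

namespace Pool.Agent.Results.MP_27a405_co.ExactFormula

open Pool.Agent.MP27a405 Finset

theorem result (V E : Type) [Fintype V] [DecidableEq V] [Fintype E] [DecidableEq E] [Nonempty V]
    (G : Mg V E) (h : Fintype.card V ≤ 8 ∨ G.GluedOn univ) :
    (G.kappa : ℕ∞) = min (G.minDeg : ℕ∞) G.tstar := by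
  have h' : G.GluedOn univ := by
    rcases h with h | h
    · exact Mg.GluedOn.small ((Finset.card_le_univ _).trans h)
    · exact h
  exact G.kappa_eq fun k F hF => G.glued_col h' k F (Finset.subset_univ F) hF

end Pool.Agent.Results.MP_27a405_co.ExactFormula
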